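import Pool.Agent.Q100.GdMeas

/-!
# Strongly countably determined measures on sick compacta are analytic
-/

set_option autoImplicit false
open MeasureTheory Filter Topology

namespace Pool.Agent.Results.MP_d104cf_an.GdeltaMeasuresAnalytic

universe u v

/-- Every strongly countably determined (i.e. `G_δ` in `P(K)`) regular Borel probability measure
on a sick compact Hausdorff space is analytic. -/
theorem result {K : Type u} [TopologicalSpace K] [CompactSpace K] [T2Space K]
    [MeasurableSpace K] [BorelSpace K] (hK : Q100.Sick.Sick.{u, v} K)
    (μ : Q100.Gd.RegProb K) (hμ : Q100.Gd.StronglyCountablyDetermined μ) :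
    haveI : IsProbabilityMeasure μ.1 := μ.2.1
    Q100.Gd.AnalyticMeas μ.1 :=
  Q100.Gd.analytic_of_scd hK μ hμ

end Pool.Agent.Results.MP_d104cf_an.GdeltaMeasuresAnalytic
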